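import Pool.Agent.U89.DL.Main

/-!
# Kernels acting on groups with deletions and the Farrell–Jones conjecture

`C` is any class of groups with the closure properties `ClosedE C`. All of them are known for the class
of the groups that satisfy the Farrell–Jones conjecture for `A`-theory with coefficients and finite
wreath products.

Let `P` be a group which is generated by subgroups `B i`, `i ∈ I`, such that for every finite `D ⊆ I`
there is an endomorphism `e D` of `P` which is the identity on `B i` for `i ∈ D` and kills `B i` for
`i ∉ D` (`Deletions`). Examples: free groups of infinite rank, free products, graph products, Artin
groups with even labels, with arbitrary index sets, and all relatively free products.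

**Theorem.** Let `G` act on `P` and on `I` such that `g` maps `B i` into a conjugate of `B (g i)`
(`Symmetric`), and let `N` be a normal subgroup of `G` which acts faithfully on `P`, and whose elements
fix almost all indices `i` and almost all `B i` pointwise (`AlmostTrivial`). Suppose that for every
finite `D ⊆ I` and every `g ∈ G` the group of automorphisms of `e D (P)` which is induced by the
stabilizer of `D` in `N⟨g⟩` is in `C`. If `G ⧸ N` is in `C` then `G` is in `C`.

So the question is reduced to subproducts of finitely many factors. For example, let `P` be the free
group with basis `I` and let `G` be any group of automorphisms which map every basis element to a
conjugate of a basis element or its inverse. `N` may be the group of all elements of `G` which fix almost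
all basis elements. The groups which occur in the last hypothesis are groups of symmetric automorphisms
of free groups of finite rank. They are known to be in the Farrell–Jones class for instance if `N` is
an infinite braid group (and its extensions by cyclic groups act by braids), or if `I` is
partially ordered and `G` acts by triangular automorphisms, so that they are poly-free. In the second case
`N` may be perfect, and its finitely generated subgroups need not be solvable.

Outline of the proof. First replace `N` by its elements which fix all indices; the quotient is a group
of finitary permutations. Let `N(D)` be the kernel of `N` on `e D (P)`, and `N_d` the intersection of
the `N(D)` with `|D| < d`. These are normal subgroups of `G` because `e (g D) g = e (g D) g (e D)`. An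
element of `N` with support `J` is in `N(D)` if it is in `N(D ∩ J)`; hence an element of `N_d` is in
`N(D)` for all but finitely many `D` with `d` elements. So `N_d / N_(d+1)` embeds in the restricted
product of the groups `N / N(D)`, `|D| = d`, which are permuted by `N⟨g⟩`. By a relative version of the
theorem of helper863 on kernels with finite support in unrestricted wreath products all the quotients
`N⟨g⟩ / N_d` are in `C`. A finitely generated subgroup of `N` with support `J` meets `N_d`, `d > |J|`,
trivially, so that the quotients detect the conjugation by `g` on finite subsets of `N`, and the
extension criterion applies.
-/

set_option autoImplicit false

namespace Pool.Agent.Results.MP_63c928_gt.DeletionKernels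

open Pool.Agent.Y110.FJ (ClosedE)
open Pool.Agent.U89.DL

/-- Extensions of groups in `C` by groups which act almost trivially on a group with deletions. -/
theorem result (C : ∀ (G : Type) [Group G], Prop) (hC : ClosedE C)
    (P I : Type) [Group P] (B : I → Subgroup P) (e : Finset I → P →* P) (hd : Deletions B e)
    (G : Type) [Group G] (α : G →* MulAut P) (π : G →* Equiv.Perm I) (hs : Symmetric B α π)
    (N : Subgroup G) [N.Normal] (hN : AlmostTrivial N B α π) (hQ : C (G ⧸ N))
    (hloc : ∀ (D : Finset I) (g : G),
      C ↥(Induced e α D ((N ⊔ Subgroup.zpowers g) ⊓ Stb (piF π) D))) : C G :=
  main hC hd hs N hN hQ hloc

end Pool.Agent.Results.MP_63c928_gt.DeletionKernels
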