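import Pool.Agent.U919.PA.Fin

/-!
# Groups of tame automorphisms of the plane with a finite orbit, in the class of Farrell-Jones groups
-/

set_option autoImplicit false

namespace Pool.Agent.Results.MP_63c928_gt.FixedPointTame

open Pool.Agent.U919.PA
open Pool.Agent.U919.PA.Law (FiniteOrbits SmallDerivatives Stabilizers Rings)
open Pool.Agent.U919.GE.Law (Cl)

/-- **Groups of tame automorphisms with a finite orbit.** Let `C` be a class of groups with the closure
properties of the Farrell-Jones groups containing the metabelian groups. Let `R` be a subring of a domain
`R'`. A group `H` of tame automorphisms of `R[x, y]` with a finite orbit on the plane over `R'` is in `C`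
if the group of the derivatives of the elements of `H` fixing a point of the orbit, at this point, is in
`C`, in particular if this group is finite or metabelian. For a domain `R` and a point `c` over `R` the
group of the tame automorphisms fixing `c` is in `C` iff `GL_2(R)` is, and iff all groups of tame
automorphisms with a finite orbit on the plane over `R` are. For `R = ℤ` and `R = F[t]` with a finite
field `F` all these groups are in `C`. -/
theorem result (C : ∀ (G : Type) [Group G], Prop) (hC : Cl C) :
    FiniteOrbits C ∧ SmallDerivatives C ∧ Stabilizers C ∧ Rings C :=
  ⟨finite_orbits hC, small hC, stabilizers hC, rings hC⟩

end Pool.Agent.Results.MP_63c928_gt.FixedPointTame
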