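import Pool.Agent.U863.CT.GFin

/-!
# Self-similar groups with a groupoid-like nucleus and the Farrell–Jones conjecture

`C` is any class of groups with the closure properties `Closed C`: it contains `ℤ` and is closed under
subgroups, finite products, free products, overgroups of finite index and directed colimits with
arbitrary structure maps. This is known for the class of the groups that satisfy the Farrell–Jones
conjecture for `A`-theory with coefficients and finite wreath products.

Let `N` be a set of automorphisms of the tree `X^*`, `X` finite, with `1 ∈ N = N⁻¹`, closed under
sections, such that for any `a`, `b` in `N` the sections of `a b` at the words of some length are in
`N` (`Auto N`). For instance, `N` may be the nucleus of a contracting self-similar group, together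
with a generating set and its sections; but `N` may be infinite. Suppose that the relation
`a⁻¹ b ∈ N` is transitive on `N ∖ {1}` (`CliqueSet N`). Then `N ∖ {1}` is the set of the nontrivial
arrows of a groupoid, in which the composition is the product in `N` whenever it is defined, and the
objects are the equivalence classes: `a` is an arrow from the class of `a` to the class of `a⁻¹`.

Theorem. If `N` is finite, or if all vertex groups of this groupoid are in `C`, then the group generated
by `N` is in `C`. So is every group of tree automorphisms `g` such that all sections of `g` at some level
are in the group generated by `N`.

For example, the condition holds for the nucleus `{1, a, b, c, d}` of the Grigorchuk group (two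
classes, with vertex groups of order two and four), for the nucleus `{1, a, b, a⁻¹ b}` and inverses of
the basilica group (three objects, trivial vertex groups, so the cover is free of rank two), and
whenever the nucleus consists of the subwords of `a₁ a₂ ... aₙ` and their inverses with no relation
but the obvious ones. The starting library has the case that `N` is a union of finitely many groups
which intersect trivially, and that the sections at letters of any two elements of `N` lie in one of
these groups; here the classes need not be groups and the contraction may take place at any depth
which depends on the elements. No condition on the activity of the automorphisms is required.

Outline of the proof. Let `Γ` be the group with generators `N` and the relations of length at most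
three which hold in `N`. The recursion of `N` lifts to `Γ`, every element of `Γ` has its sections at
all long words in `N`, and no nontrivial element of `N` acts trivially; so `⟨N⟩` is the quotient of
`Γ` by the elements which die, and it is a directed colimit of subgroups of iterated wreath products of
`Γ`. It remains to see that `Γ` is in `C`. Choose an arrow `a p` from a base object to every object `p`.
An arrow `g` from `p` to `q` is mapped to `x_p⁻¹ (a_p g a_q⁻¹) x_q` in the free product of all vertex
groups and of a free group with a letter `x_p` for every object. By the transitivity two nontrivial
elements of `N` with product in `N` are composable arrows, so this is a homomorphism on `Γ`; and it
has a left inverse, which maps `x_p` to `a_p`.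
-/

set_option autoImplicit false

namespace Pool.Agent.Results.MP_63c928_gt.GroupoidNuclei

open Pool.Agent.Y462.SS Pool.Agent.U863.CT

/-- Let `C` be a class of groups with the closure properties `Closed C`, and let `N` be a set of tree
automorphisms which contains `1` and is closed under inverses and sections, such that the sections of
products of two elements of `N` are in `N` at some depth, and such that `a⁻¹ b ∈ N` is transitive on
`N ∖ {1}`. If `N` is finite or all vertex groups are in `C`, then every group `K` of tree automorphisms
each of which has all sections at some level `n` in the group generated by `N` is in `C`. -/
theorem result (C : ∀ (G : Type) [Group G], Prop) (hC : Closed C) (X : Type) [Finite X]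
    (N : Set (T X)) (hN : Auto N) (hT : CliqueSet N)
    (hv : N.Finite ∨ ∀ (p : Set (T X)) (V : Subgroup (T X)), (∀ g, g ∈ V ↔ Arrow N p p g) → C V)
    (K : Subgroup (T X)) (hK : ∀ g ∈ K, ∃ n : ℕ, ∀ v : List X, v.length = n →
      secw (toWr X) g v ∈ Subgroup.closure N) : C K :=
  gpd_main' C hC N hN hT hv K hK

end Pool.Agent.Results.MP_63c928_gt.GroupoidNuclei
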