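import Pool.Agent.U89.ML.Fin

/-!
# McLain kernels and the Farrell–Jones conjecture

`C` is any class of groups with the closure properties `ClosedE C` which contains the solvable
groups. This is known for the class of the groups that satisfy the Farrell–Jones conjecture for
`A`-theory with coefficients and finite wreath products (solvable groups: Kasprowski, Ullmann,
Wegner, Winges).

Let `Λ` be a partially ordered set, `V x` (`x ∈ Λ`) abelian groups and `W = ⊕ V x`. An automorphism
`a` of `W` is *finitary unitriangular* (`FinitaryUnitriangular a`) if there is a finite set `J ⊆ Λ` such that
`(a - 1) (V x)` is `0` for `x ∉ J` and lies in the sum of the `V y` with `y ∈ J`, `y < x`, for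
`x ∈ J`. It is *monomial* over an automorphism `σ` of `Λ` (`Monomial σ P`) if `P (V x) ⊆ V (σ x)`. For
`V x = R`, a ring, the group of the `R`-linear finitary unitriangular automorphisms is McLain's group
`M (Λ, R)`.

**Theorem.** Let `N` be a normal subgroup of a group `G` and let `j` be an injective homomorphism
from `N` to the group of finitary unitriangular automorphisms of `W`. Suppose that for all `g ∈ G`
and all finite sets `E ⊆ N` the conjugation by `g` is on `E` the conjugation by the product of a
finitary unitriangular and a monomial automorphism of `W`, which may depend on `g` and `E`. If
`G ⧸ N` is in `C` then `G` is in `C`.

For example, `G` may be the semidirect product of `M (Λ, R)` and any group in `C` which acts on `Λ`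
by automorphisms of the partially ordered set and on `R` by automorphisms of the ring.

The group `N` is locally nilpotent, but in general its derived series does not detect its finitely
generated subgroups: `M (ℚ, R)` is perfect.

Outline of the proof. By the extension criterion it suffices to embed the subgroup generated by
finite sets `E` and `g E g⁻¹` in a group `H` in `C` in which the partial conjugation is inner. Let `J`
be a finite set which contains all supports and `L` the union of its translates by the powers of `σ`.
Then `H` is generated by the monomial automorphism `P` and the group `A` of the finitary unitriangular
automorphisms with support in `L`. Call `x` reachable from `y` if `x ≤ σ ^ n y` for some integer `n`.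
The elements of `A` whose entries `(y, x)` vanish when `x` is reachable from `y` form a normal
subgroup `K` of `H`, and `K` is solvable of derived length at most `|J|`. If `x` is reachable from
`y < x` then the interval `[y, x]` of `L` is finite, so that modulo `K` every finitely generated
subgroup of `A` meets some term of the derived series of `A` trivially. Therefore `H / K`, and then
`H`, is in `C`.
-/

set_option autoImplicit false

namespace Pool.Agent.Results.MP_63c928_gt.McLainKernels

open Pool.Agent.Y110.FJ (ClosedE)
open Pool.Agent.U89.ML

/-- Extensions of groups in `C` by groups of finitary unitriangular automorphisms of a direct sum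
over a partially ordered set. -/
theorem result (C : ∀ (G : Type) [Group G], Prop) (hC : ClosedE C)
    (hsol : ∀ (S : Type) [Group S], Group.IsSolvable S → C S)
    (Λ : Type) [PartialOrder Λ] (V : Λ → Type) [∀ x, AddCommGroup (V x)]
    (G : Type) [Group G] (N : Subgroup G) [N.Normal] (hQ : C (G ⧸ N))
    (j : N → AutW V) (hj : FaithfulUnitriangular j)
    (hconj : ∀ (g : G) (E : Set N), E.Finite → ∃ Q, FinitaryMonomial Q ∧ InducedOn j g E Q) :
    C G :=
  mclain C hC hsol Λ V G N hQ j hj hconj

end Pool.Agent.Results.MP_63c928_gt.McLainKernels
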